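import Pool.Agent.Y321.PD.Main
import Pool.Agent.V1186.PJ.Z

/-!
# Anosov diffeomorphisms with periodic data on one attractor: coverings
-/

set_option autoImplicit false

open scoped Manifold ContDiff Topology Bundle
open Set Filter Bundle MeasureTheory

namespace Pool.Agent.Results.MP_0a0487_an.AttractorPeriodicData

open Pool.Agent.H721R2 Pool.Agent.H789R2.AN Pool.Agent.H779R2.An Pool.Agent.V1186.PJ
  Pool.Agent.TH289 Pool.Agent.Y321.PJ

/-- The return maps `D(fᵏ)`, `fᵏ(p) = p`, `k ≥ 1`, at the periodic points `p` IN `A` have uniformly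
bounded distortion on the subspaces `V p`: for some constant `K`,
`‖D(fᵏ) v‖ / ‖v‖ ≤ K ‖D(fᵏ) w‖ / ‖w‖` for all such `k`, `p` and all `v, w ∈ V p` (written without
denominators). -/
def PeriodicDistortionOn {E : Type*} [NormedAddCommGroup E] [NormedSpace ℝ E]
    {M : Type*} [TopologicalSpace M] [ChartedSpace E M] (A : Set M) (f : M → M)
    (N : TangentBundle 𝓘(ℝ, E) M → ℝ) (V : ∀ x : M, Submodule ℝ (TangentSpace 𝓘(ℝ, E) x)) : Prop :=
  ∃ K : ℝ, ∀ (k : ℕ) (p : M), 1 ≤ k → p ∈ A → f^[k] p = p → ∀ v ∈ V p, ∀ w ∈ V p,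
    N (tangentMap 𝓘(ℝ, E) 𝓘(ℝ, E) (f^[k]) ⟨p, v⟩) * N ⟨p, w⟩ ≤
      K * (N (tangentMap 𝓘(ℝ, E) 𝓘(ℝ, E) (f^[k]) ⟨p, w⟩) * N ⟨p, v⟩)

/-- **Anosov diffeomorphisms with periodic data on one attractor: universal cover.**
Let `f` be a `C²` Anosov diffeomorphism of a closed connected smooth manifold `M` modelled on the
finite-dimensional space `E`, with splitting `TM = Es ⊕ Eu` of ranks `ds, du ≥ 2`; transitivity is not
assumed. Let `A` be a nonempty closed invariant set which contains the unstable sets of its points and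
suppose that, at the periodic points IN `A`,

* the return maps have uniformly bounded distortion on ONE of the two bundles, and
* `|det D(fᵏ)(p)| ≥ 1` (`k ≥ 1`, `fᵏ(p) = p`);

or that `A` contains the stable sets of its points, and the same is true with `≤ 1`. Then `A = M`, `f` is
topologically transitive, and there is a surjective covering map `E → M`, `E ≅ ℝⁿ`. -/
theorem result (E : Type*) [NormedAddCommGroup E] [NormedSpace ℝ E] [FiniteDimensional ℝ E]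
    (M : Type*) [TopologicalSpace M] [T2Space M] [CompactSpace M] [ConnectedSpace M]
    [ChartedSpace E M] [IsManifold 𝓘(ℝ, E) ∞ M] (f : Diffeomorph 𝓘(ℝ, E) 𝓘(ℝ, E) M M 1)
    (hf2 : ContMDiff 𝓘(ℝ, E) 𝓘(ℝ, E) 2 f) (hf2' : ContMDiff 𝓘(ℝ, E) 𝓘(ℝ, E) 2 f.symm)
    (Es Eu : ∀ x : M, Submodule ℝ (TangentSpace 𝓘(ℝ, E) x)) (hA : IsAnosov f Es Eu)
    (N : TangentBundle 𝓘(ℝ, E) M → ℝ) (hN : IsTangentNorm N)
    (ds du : ℕ) (h2s : 2 ≤ ds) (h2u : 2 ≤ du) (hds : ∀ x, Module.finrank ℝ (Es x) = ds)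
    (hdu : ∀ x, Module.finrank ℝ (Eu x) = du) (A : Set M)
    (hD : PeriodicDistortionOn A f N Eu ∨ PeriodicDistortionOn A f N Es)
    (hJ : (UnstSat f.toHomeomorph A ∧
        ∀ (k : ℕ) (p : M), 1 ≤ k → p ∈ A → f^[k] p = p → 1 ≤ perJac E f k p) ∨
      (UnstSat f.symm.toHomeomorph A ∧
        ∀ (k : ℕ) (p : M), 1 ≤ k → p ∈ A → f^[k] p = p → perJac E f k p ≤ 1)) :
    A = univ ∧ TopTransitive f ∧ ∃ q : E → M, IsCoveringMap q ∧ Function.Surjective q := by
  borelize M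
  borelize E
  obtain ⟨-, H1, H2⟩ := man_smooth f hf2 hf2' Es Eu hA (Measure.addHaar : Measure E)
  have h : A = univ ∧ TopTransitive f := by
    rcases hJ with ⟨h1, h2⟩ | ⟨h1, h2⟩
    · exact H1 A h1 h2
    · exact H2 A h1 h2
  obtain ⟨hAu, htr⟩ := h
  refine ⟨hAu, htr, ?_⟩
  have hnw : ∀ U : Set M, IsOpen U → U.Nonempty → ∃ m : ℕ, 1 ≤ m ∧ (f^[m] '' U ∩ U).Nonempty := by
    intro U hU hUn
    have hfU : IsOpen (f '' U) := f.toHomeomorph.isOpenMap U hU
    obtain ⟨n, _, ⟨_, ⟨x, hx, rfl⟩, rfl⟩, hy⟩ := htr (f '' U) U hfU (hUn.image f) hU hUn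
    exact ⟨n + 1, by omega, f^[n] (f x), ⟨x, hx, by rw [Function.iterate_succ_apply]⟩, hy⟩
  have hD' : Pool.Agent.Y321.PD.PerDist f N Eu ∨ Pool.Agent.Y321.PD.PerDist f N Es := by
    rcases hD with ⟨K, h1⟩ | ⟨K, h1⟩
    · exact Or.inl ⟨K, fun k p hk hp => h1 k p hk (by rw [hAu]; exact mem_univ _) hp⟩
    · exact Or.inr ⟨K, fun k p hk hp => h1 k p hk (by rw [hAu]; exact mem_univ _) hp⟩
  exact (Pool.Agent.Y321.PD.main_per E M f hf2 hf2' Es Eu hA N hN ds du h2s h2u hds hdu hnw hD').2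

end Pool.Agent.Results.MP_0a0487_an.AttractorPeriodicData
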