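import Pool.Agent.Y331.EP.Trans

/-!
# MP_0a0487_an: semiconjugacies without loss of entropy and universal covers

Let `f`, `g` be `C¹` Anosov diffeomorphisms of closed connected manifolds `M`, `M'` with
`dim M' ≤ dim M`, let `h` be a continuous map of `M` onto `M'` with `h ∘ f = g ∘ h`, and suppose
that ONE of `f`, `g` has global product structure. If `f` is transitive and `h` loses no entropy
(or few periodic points, or has countable fibres, or is boundedly finite to one on homoclinic
classes), both manifolds are covered by Euclidean space.

From the starting files: `Pool.Agent.Y331.EP`.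
-/

set_option autoImplicit false

open scoped Manifold ContDiff Topology
open Set Filter

namespace Pool.Agent.Results.MP_0a0487_an.EntropyCovered

open Pool.Agent.H721R2 Pool.Agent.H789R2.AN Pool.Agent.TH289 Pool.Agent.TH289.K
open Pool.Agent.Y331.EP

/-- **Semiconjugacies without loss of entropy and universal covers.**
Let `f` and `g` be `C¹` Anosov diffeomorphisms of closed connected manifolds `M` and `M'` with
`dim M' ≤ dim M`, and let `h` be a continuous map of `M` onto `M'` with `h ∘ f = g ∘ h`. Suppose
that `f` or `g` has global product structure (`GPS`: each stable path and each unstable path with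
the same initial point span a rectangle; for instance a hyperbolic automorphism of an
infranilmanifold). Then the following are equivalent.
* `f` is topologically transitive and `h_top(f) ≤ h_top(g)` (the opposite inequality always holds).
* `f` is topologically transitive and, for some `C` and infinitely many `n`, the number of the
  fixed points of `f ^ n` is at most `C` times the number of the fixed points of `g ^ n`.
* Every fibre of `h` is countable.
* There is a bound `B` such that, for every `x`, at most `B` points that are both forward and
  backward asymptotic to `x` under `f` have the same image as `x`.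
* `h` is a covering map.
* `h` is a covering map with finite fibres, and both `M` and `M'` are covered by Euclidean spaces
  (surjective covering maps `E → M` and `E' → M'`). -/
theorem result (E : Type*) [NormedAddCommGroup E] [NormedSpace ℝ E] [FiniteDimensional ℝ E]
    (M : Type*) [MetricSpace M] [CompactSpace M] [ConnectedSpace M]
    [ChartedSpace E M] [IsManifold 𝓘(ℝ, E) ∞ M] (f : Diffeomorph 𝓘(ℝ, E) 𝓘(ℝ, E) M M 1)
    (Es Eu : ∀ x : M, Submodule ℝ (TangentSpace 𝓘(ℝ, E) x)) (hf : IsAnosov f Es Eu)
    (E' : Type*) [NormedAddCommGroup E'] [NormedSpace ℝ E'] [FiniteDimensional ℝ E']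
    (M' : Type*) [MetricSpace M'] [CompactSpace M'] [ConnectedSpace M']
    [ChartedSpace E' M'] [IsManifold 𝓘(ℝ, E') ∞ M'] (g : Diffeomorph 𝓘(ℝ, E') 𝓘(ℝ, E') M' M' 1)
    (Es' Eu' : ∀ x : M', Submodule ℝ (TangentSpace 𝓘(ℝ, E') x)) (hg : IsAnosov g Es' Eu')
    (hG : GPS f.toHomeomorph ∨ GPS g.toHomeomorph)
    (hdim : Module.finrank ℝ E' ≤ Module.finrank ℝ E)
    (h : C(M, M')) (hs : Function.Surjective h) (hfg : ∀ x, h (f x) = g (h x)) :
    List.TFAE [TopTransitive f ∧ Dynamics.coverEntropy f univ ≤ Dynamics.coverEntropy g univ,
      TopTransitive f ∧ ∃ C : ℕ, ∃ᶠ n in atTop,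
        {x | f^[n] x = x}.ncard ≤ C * {y | g^[n] y = y}.ncard,
      ∀ y, (h ⁻¹' {y}).Countable,
      ∃ B : ℕ, ∀ x, {y | h y = h x ∧ Asym f x y ∧ Asym f.symm x y}.encard ≤ B,
      IsCoveringMap h,
      IsCoveringMap h ∧ (∀ y, (h ⁻¹' {y}).Finite) ∧
        (∃ π : E → M, IsCoveringMap π ∧ Function.Surjective π) ∧
        ∃ π : E' → M', IsCoveringMap π ∧ Function.Surjective π] :=
  man_both' f Es Eu hf g Es' Eu' hg hG hdim h h.continuous hs hfg

end Pool.Agent.Results.MP_0a0487_an.EntropyCovered
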