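import Pool.Agent.V1173.EX.Univ

/-!
# Universal covers of manifolds with an expansive factor of an Anosov diffeomorphism

Let `f` be an Anosov diffeomorphism with global product structure of a closed connected manifold `M`,
for instance a hyperbolic automorphism of an infranilmanifold, let `M'` be a closed connected
TOPOLOGICAL manifold with `dim M' ≤ dim M`, let `g` be an expansive homeomorphism of `M'` (no smooth
or hyperbolic structure is assumed) and let `h : M → M'` be continuous with `h ∘ f = g ∘ h`. If for
ONE periodic point `p` of `f` only finitely many points of the fibre of `h` through `p` are forward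
asymptotic to `p`, or only finitely many are backward asymptotic to `p`, then `M'` is covered by
Euclidean space.
-/

set_option autoImplicit false

open scoped Manifold ContDiff Topology
open Set Filter

namespace Pool.Agent.Results.MP_0a0487_an.ExpansiveFactorsCovered

open Pool.Agent.H721R2 Pool.Agent.H789R2.AN Pool.Agent.TH289 Pool.Agent.TH289.K

/-- **Universal covers of expansive factors.**
Let `f` be a `C¹` Anosov diffeomorphism of a closed connected manifold `M` with global product
structure (`GPS`: each stable path and each unstable path with the same initial point span a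
rectangle; for instance a hyperbolic automorphism of an infranilmanifold). Let `g` be an expansive
homeomorphism of a closed connected topological manifold `M'`, modelled on `E'`, with
`dim M' ≤ dim M`, and let `h : M → M'` be continuous with `h ∘ f = g ∘ h` such that for some
periodic point `p` of `f` only finitely many points of the fibre `h⁻¹(h p)` are forward asymptotic to
`p`, or only finitely many are backward asymptotic to `p` (for instance the fibre is finite).

Then `dim M' = dim M` and `M'` is covered by Euclidean space: there is a surjective covering map
`E' → M'`. Moreover `h` is a finite covering map of `M` onto `M'`, and `g` is topologically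
transitive and has global product structure. -/
theorem result (E : Type*) [NormedAddCommGroup E] [NormedSpace ℝ E] [FiniteDimensional ℝ E]
    (M : Type*) [TopologicalSpace M] [T2Space M] [CompactSpace M] [ConnectedSpace M]
    [ChartedSpace E M] [IsManifold 𝓘(ℝ, E) ∞ M] (f : Diffeomorph 𝓘(ℝ, E) 𝓘(ℝ, E) M M 1)
    (Es Eu : ∀ x : M, Submodule ℝ (TangentSpace 𝓘(ℝ, E) x)) (hf : IsAnosov f Es Eu)
    (hG : GPS f.toHomeomorph)
    (E' : Type*) [NormedAddCommGroup E'] [NormedSpace ℝ E'] [FiniteDimensional ℝ E']
    (M' : Type*) [TopologicalSpace M'] [T2Space M'] [CompactSpace M'] [ConnectedSpace M']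
    [ChartedSpace E' M'] (hdim : Module.finrank ℝ E' ≤ Module.finrank ℝ E) (g : M' ≃ₜ M')
    (hg : Expansive g) (h : C(M, M')) (hfg : ∀ x, h (f x) = g (h x))
    (hfin : ∃ p ∈ Function.periodicPts f,
      (h ⁻¹' {h p} ∩ {y | Asym f p y}).Finite ∨ (h ⁻¹' {h p} ∩ {y | Asym f.symm p y}).Finite) :
    Module.finrank ℝ E' = Module.finrank ℝ E ∧
      (∃ q : E' → M', IsCoveringMap q ∧ Function.Surjective q) ∧
      IsCoveringMap h ∧ Function.Surjective h ∧ (∀ y, (h ⁻¹' {y}).Finite) ∧
      TopTransitive g ∧ GPS g :=
  Pool.Agent.V1173.EX.univ_cover f Es Eu hf hG g h h.continuous hfg hdim hg hfin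

end Pool.Agent.Results.MP_0a0487_an.ExpansiveFactorsCovered
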