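import Pool.Agent.Y331.EP.Trans
import Pool.Agent.V1173.EX.Comp
import Pool.Agent.V11108.CovLift

/-!
# MP_0a0487_an: open factors have the same universal cover

Let `f` be a `C¹` Anosov diffeomorphism of a closed connected manifold `M` and `h : M → Y` an open
semiconjugacy onto a topologically transitive expansive homeomorphism `g` of a compact metric space
`Y` (no product structure of `g` is assumed, and `Y` need not be a manifold a priori). If `h` has
boundedly many preimages in every homoclinic class, or `f` is transitive and `h` loses no entropy,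
or few periodic points, or has countable fibres, then `M` and `Y` have the same simply connected
covering spaces; in particular `M` is covered by Euclidean space if and only if `Y` is.

From the starting files: `Pool.Agent.Y331.EP` (`man_open_trans`); composition of coverings:
`Pool.Agent.V1173.EX.Comp`; lifts of coverings: `Pool.Agent.V11108.CovLift`.
-/

set_option autoImplicit false

open scoped Manifold ContDiff Topology
open Set Filter

namespace Pool.Agent.Results.MP_0a0487_an.OpenFactorsCovered

open Pool.Agent.H721R2 Pool.Agent.H789R2.AN Pool.Agent.TH289 Pool.Agent.TH289.K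
open Pool.Agent.Y331.EP

/-- `Z` covers `X`: there is a covering map of `Z` onto `X`. -/
def Covers (Z X : Type*) [TopologicalSpace Z] [TopologicalSpace X] : Prop :=
  ∃ π : Z → X, IsCoveringMap π ∧ Function.Surjective π

/-- **Open factors have the same universal cover.** Let `f` be a `C¹` Anosov diffeomorphism of a
closed connected manifold `M` (modelled on `E ≅ ℝⁿ`, `n = dim M`), let `g` be an expansive,
topologically transitive homeomorphism of the compact metric space `Y`, and let `h` be a continuous
open map of `M` onto `Y` with `h ∘ f = g ∘ h`. Suppose that one of the following holds.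
* For some `B` and every `x`, at most `B` points that are both forward and backward asymptotic to
  `x` under `f` have the same image as `x`.
* `f` is topologically transitive and `h_top(f) ≤ h_top(g)`.
* `f` is topologically transitive and, for some `C` and infinitely many `n`, the number of the fixed
  points of `f ^ n` is at most `C` times the number of the fixed points of `g ^ n`.
* `f` is topologically transitive and the fibres of `h` are countable.

Then every simply connected, locally path connected space `Z` covers `M` if and only if it covers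
`Y`. In particular (`Z = E`) `M` is covered by Euclidean space if and only if `Y` is. -/
theorem result (E : Type*) [NormedAddCommGroup E] [NormedSpace ℝ E] [FiniteDimensional ℝ E]
    (M : Type*) [MetricSpace M] [CompactSpace M] [ConnectedSpace M]
    [ChartedSpace E M] [IsManifold 𝓘(ℝ, E) ∞ M] (f : Diffeomorph 𝓘(ℝ, E) 𝓘(ℝ, E) M M 1)
    (Es Eu : ∀ x : M, Submodule ℝ (TangentSpace 𝓘(ℝ, E) x)) (hf : IsAnosov f Es Eu)
    (Y : Type*) [MetricSpace Y] [CompactSpace Y] (g : Y ≃ₜ Y) (hg : Expansive g)
    (ht : TopTransitive g) (h : C(M, Y)) (hopen : IsOpenMap h) (hsurj : Function.Surjective h)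
    (hfg : ∀ x, h (f x) = g (h x))
    (hcond : (∃ B : ℕ, ∀ x, {y | h y = h x ∧ Asym f x y ∧ Asym f.symm x y}.encard ≤ B) ∨
      TopTransitive f ∧ (Dynamics.coverEntropy f univ ≤ Dynamics.coverEntropy g univ ∨
        (∃ C : ℕ, ∃ᶠ n in atTop, {x | f^[n] x = x}.ncard ≤ C * {y | g^[n] y = y}.ncard) ∨
        ∀ y, (h ⁻¹' {y}).Countable)) :
    (∀ (Z : Type*) [TopologicalSpace Z] [SimplyConnectedSpace Z] [LocallyPathConnectedSpace Z],
      Covers Z M ↔ Covers Z Y) ∧ (Covers E M ↔ Covers E Y) := by
  have key := man_open_trans f Es Eu hf g hg ht h h.continuous hopen hsurj hfg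
  have k06 := key.out 0 6
  have k16 := key.out 1 6
  have k26 := key.out 2 6
  have k46 := key.out 4 6
  have hcov : TopTransitive f ∧ IsCoveringMap h ∧ ∀ y, (h ⁻¹' {y}).Finite := by
    rcases hcond with h1 | ⟨hT, h1 | h1 | h1⟩
    · exact k46.1 h1
    · exact k06.1 ⟨hT, h1⟩
    · exact k16.1 ⟨hT, h1⟩
    · exact k26.1 ⟨hT, h1⟩
  obtain ⟨-, hc, hfin⟩ := hcov
  have main : ∀ (Z : Type _) [TopologicalSpace Z] [SimplyConnectedSpace Z]
      [LocallyPathConnectedSpace Z], Covers Z M ↔ Covers Z Y := by
    intro Z _ _ _
    constructor
    · rintro ⟨π, hπ, hs⟩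
      exact ⟨h ∘ π, Pool.Agent.V1173.EX.covering_comp hπ hc hfin, hsurj.comp hs⟩
    · rintro ⟨q, hq, hs⟩
      obtain ⟨p, hp, -⟩ := Pool.Agent.V11108.CovLift.exists_lift hc hsurj hq hs
      exact ⟨p, hp, Pool.Agent.H789R2.GP.covering_surj hp⟩
  refine ⟨main, ?_⟩
  constructor
  · rintro ⟨π, hπ, hs⟩
    exact ⟨h ∘ π, Pool.Agent.V1173.EX.covering_comp hπ hc hfin, hsurj.comp hs⟩
  · rintro ⟨q, hq, hs⟩
    obtain ⟨p, hp, -⟩ := Pool.Agent.V11108.CovLift.exists_lift hc hsurj hq hs
    exact ⟨p, hp, Pool.Agent.H789R2.GP.covering_surj hp⟩

end Pool.Agent.Results.MP_0a0487_an.OpenFactorsCovered
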